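import Mathlib

/-!
# Two unipotent automorphisms of a plane: free orbits

`T 0` and `T 1` are automorphisms of a rational vector space, `e 0`, `e 1` linearly independent
vectors with `T 0 (e 0) = e 0`, `T 0 (e 1) = e 1 + 3 e 0`, `T 1 (e 1) = e 1`,
`T 1 (e 0) = e 0 + 3 e 1`. No nontrivial word in `T 0`, `T 1` maps `e 0 + e 1` to one of its
multiples.
-/

set_option autoImplicit false

namespace Pool.Agent.V1178.FG

/-- The region reached after the letter `x`. -/
def St (x : Fin 2 × Bool) (u v : ℚ) : Prop :=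
  (x.1 = 0 → v ^ 2 < u ^ 2) ∧ (x.1 = 1 → u ^ 2 < v ^ 2) ∧
    (x.2 = true → 0 < u * v) ∧ (x.2 = false → u * v < 0)

/-- The region where the letter `x` may be applied. -/
def Pre (x : Fin 2 × Bool) (u v : ℚ) : Prop :=
  u ≠ 0 ∧ v ≠ 0 ∧ (x.1 = 0 → u ^ 2 ≤ v ^ 2 ∨ (x.2 = true → 0 < u * v) ∧ (x.2 = false → u * v < 0)) ∧
    (x.1 = 1 → v ^ 2 ≤ u ^ 2 ∨ (x.2 = true → 0 < u * v) ∧ (x.2 = false → u * v < 0))

/-- The image of the point `(u, v)` under the letter `x`. -/
def mv (x : Fin 2 × Bool) (p : ℚ × ℚ) : ℚ × ℚ :=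
  if x.1 = 0 then (if x.2 then (p.1 + 3 * p.2, p.2) else (p.1 - 3 * p.2, p.2))
  else (if x.2 then (p.1, p.2 + 3 * p.1) else (p.1, p.2 - 3 * p.1))

lemma aux_le {u v : ℚ} (hv : v ≠ 0) (h : u ^ 2 ≤ v ^ 2) :
    v ^ 2 < (u + 3 * v) ^ 2 ∧ 0 < (u + 3 * v) * v := by
  have hv2 : 0 < v ^ 2 := by positivity
  constructor
  · nlinarith [sq_nonneg (u + v)]
  · nlinarith [sq_nonneg (u + v)]

lemma aux_pos {u v : ℚ} (h : 0 < u * v) :
    v ^ 2 < (u + 3 * v) ^ 2 ∧ 0 < (u + 3 * v) * v := by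
  have hv : v ≠ 0 := by
    rintro rfl
    simp at h
  have hv2 : 0 < v ^ 2 := by positivity
  constructor
  · nlinarith [sq_nonneg u]
  · nlinarith

lemma step {x : Fin 2 × Bool} {u v : ℚ} (h : Pre x u v) :
    St x (mv x (u, v)).1 (mv x (u, v)).2 := by
  obtain ⟨i, b⟩ := x
  obtain ⟨hu, hv, h0, h1⟩ := h
  have key : ∀ {s t : ℚ}, t ≠ 0 → (s ^ 2 ≤ t ^ 2 ∨ 0 < s * t) →
      t ^ 2 < (s + 3 * t) ^ 2 ∧ 0 < (s + 3 * t) * t := by
    intro s t ht h
    rcases h with h | h
    · exact aux_le ht h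
    · exact aux_pos h
  have keyn : ∀ {s t : ℚ}, t ≠ 0 → (s ^ 2 ≤ t ^ 2 ∨ s * t < 0) →
      t ^ 2 < (s - 3 * t) ^ 2 ∧ (s - 3 * t) * t < 0 := by
    intro s t ht h
    have h' := key (s := s) (t := -t) (neg_ne_zero.2 ht) (by
      rcases h with h | h
      · left
        rw [neg_sq]
        exact h
      · right
        linarith [mul_neg s t])
    constructor
    · have := h'.1
      nlinarith
    · have := h'.2
      nlinarith
  fin_cases i <;> cases b
  · have h2 := keyn (s := u) (t := v) hv ((h0 rfl).imp id fun h => h.2 rfl)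
    refine ⟨fun _ => ?_, fun h => absurd h (by decide), fun h => absurd h (by decide), fun _ => ?_⟩
    · simpa [mv] using h2.1
    · simpa [mv] using h2.2
  · have h2 := key (s := u) (t := v) hv ((h0 rfl).imp id fun h => h.1 rfl)
    refine ⟨fun _ => ?_, fun h => absurd h (by decide), fun _ => ?_, fun h => absurd h (by decide)⟩
    · simpa [mv] using h2.1
    · simpa [mv] using h2.2
  · have h2 := keyn (s := v) (t := u) hu ((h1 rfl).imp id fun h => by
      have := h.2 rfl
      linarith [mul_comm u v])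
    refine ⟨fun h => absurd h (by decide), fun _ => ?_, fun h => absurd h (by decide), fun _ => ?_⟩
    · simpa [mv] using h2.1
    · have := h2.2
      simp only [mv]
      simp
      linarith [mul_comm u (v - 3 * u)]
  · have h2 := key (s := v) (t := u) hu ((h1 rfl).imp id fun h => by
      have := h.1 rfl
      linarith [mul_comm u v])
    refine ⟨fun h => absurd h (by decide), fun _ => ?_, fun _ => ?_, fun h => absurd h (by decide)⟩
    · simpa [mv] using h2.1
    · have := h2.2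
      simp only [mv]
      simp
      linarith [mul_comm u (v + 3 * u)]

lemma trans {x y : Fin 2 × Bool} {u v : ℚ} (h : St y u v) (hxy : x.1 = y.1 → x.2 = y.2) :
    Pre x u v := by
  obtain ⟨i, b⟩ := x
  obtain ⟨j, c⟩ := y
  obtain ⟨h1, h2, h3, h4⟩ := h
  have huv : u * v ≠ 0 := by
    cases c
    · exact (h4 rfl).ne
    · exact (h3 rfl).ne'
  refine ⟨left_ne_zero_of_mul huv, right_ne_zero_of_mul huv, fun hi => ?_, fun hi => ?_⟩
  · change i = 0 at hi
    subst hi
    fin_cases j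
    · right
      have hb : b = c := hxy rfl
      subst hb
      exact ⟨h3, h4⟩
    · left
      exact (h2 rfl).le
  · change i = 1 at hi
    subst hi
    fin_cases j
    · left
      exact (h1 rfl).le
    · right
      have hb : b = c := hxy rfl
      subst hb
      exact ⟨h3, h4⟩

lemma pre_one (x : Fin 2 × Bool) : Pre x 1 1 :=
  ⟨one_ne_zero, one_ne_zero, fun _ => Or.inl le_rfl, fun _ => Or.inl le_rfl⟩

variable {M : Type*} [AddCommGroup M] [Module ℚ M]

lemma word {f : Fin 2 × Bool → M → M} {e : Fin 2 → M}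
    (hT : ∀ (x : Fin 2 × Bool) (p : ℚ × ℚ), f x (p.1 • e 0 + p.2 • e 1) =
      (mv x p).1 • e 0 + (mv x p).2 • e 1) :
    ∀ (L : List (Fin 2 × Bool)) (x : Fin 2 × Bool), FreeGroup.IsReduced (x :: L) →
      ∃ p : ℚ × ℚ, (x :: L).foldr f (e 0 + e 1) = p.1 • e 0 + p.2 • e 1 ∧
        St x p.1 p.2 := by
  intro L
  induction L with
  | nil =>
    intro x _
    refine ⟨mv x (1, 1), ?_, step (pre_one x)⟩
    have := hT x (1, 1)
    simp only [one_smul] at this
    simpa using this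
  | cons y L ih =>
    intro x hx
    rw [FreeGroup.isReduced_cons_cons] at hx
    obtain ⟨p, h1, h2⟩ := ih y hx.2
    refine ⟨mv x p, ?_, step (trans h2 hx.1)⟩
    rw [List.foldr_cons, h1]
    exact hT x p

/-- No nontrivial word maps `e 0 + e 1` to one of its multiples. Here `T i (x)` is the sum of `x` and
of `A i x`, and the inverse of `T i` is the difference, on the plane of `e 0`, `e 1`. -/
theorem free_orbit {A : Fin 2 → M →ₗ[ℚ] M} {e : Fin 2 → M}
    (h00 : A 0 (e 0) = 0) (h01 : A 0 (e 1) = (3 : ℚ) • e 0)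
    (h10 : A 1 (e 0) = (3 : ℚ) • e 1) (h11 : A 1 (e 1) = 0)
    (hli : ∀ u v : ℚ, u • e 0 + v • e 1 = 0 → u = 0 ∧ v = 0)
    {w : FreeGroup (Fin 2)} (hw : w ≠ 1) (l : ℚ) :
    w.toWord.foldr (fun x y => if x.2 then y + A x.1 y else y - A x.1 y) (e 0 + e 1) ≠
      l • (e 0 + e 1) := by
  have hT : ∀ (x : Fin 2 × Bool) (p : ℚ × ℚ),
      (fun (x : Fin 2 × Bool) (y : M) => if x.2 then y + A x.1 y else y - A x.1 y) x
        (p.1 • e 0 + p.2 • e 1) = (mv x p).1 • e 0 + (mv x p).2 • e 1 := by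
    have g0 : ∀ u v : ℚ, A 0 (u • e 0 + v • e 1) = (3 * v) • e 0 := by
      intro u v
      rw [map_add, map_smul, map_smul, h00, h01]
      module
    have g1 : ∀ u v : ℚ, A 1 (u • e 0 + v • e 1) = (3 * u) • e 1 := by
      intro u v
      rw [map_add, map_smul, map_smul, h10, h11]
      module
    rintro ⟨i, b⟩ ⟨u, v⟩
    fin_cases i <;> cases b
    · change (u • e 0 + v • e 1) - A 0 (u • e 0 + v • e 1) = (u - 3 * v) • e 0 + v • e 1
      rw [g0]
      module
    · change (u • e 0 + v • e 1) + A 0 (u • e 0 + v • e 1) = (u + 3 * v) • e 0 + v • e 1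
      rw [g0]
      module
    · change (u • e 0 + v • e 1) - A 1 (u • e 0 + v • e 1) = u • e 0 + (v - 3 * u) • e 1
      rw [g1]
      module
    · change (u • e 0 + v • e 1) + A 1 (u • e 0 + v • e 1) = u • e 0 + (v + 3 * u) • e 1
      rw [g1]
      module
  have hL : FreeGroup.IsReduced w.toWord := FreeGroup.isReduced_toWord
  have hne : w.toWord ≠ [] := fun h => hw (FreeGroup.toWord_eq_nil_iff.1 h)
  obtain ⟨x, L, hxL⟩ := List.exists_cons_of_ne_nil hne
  rw [hxL] at hL
  obtain ⟨p, h1, h2⟩ := word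
    (f := fun (x : Fin 2 × Bool) (y : M) => if x.2 then y + A x.1 y else y - A x.1 y) (e := e)
    hT L x hL
  intro h
  rw [hxL, h1] at h
  have h3 : (p.1 - l) • e 0 + (p.2 - l) • e 1 = 0 := by
    have : (p.1 - l) • e 0 + (p.2 - l) • e 1 = (p.1 • e 0 + p.2 • e 1) - l • (e 0 + e 1) := by
      module
    rw [this, h, sub_self]
  obtain ⟨h4, h5⟩ := hli _ _ h3
  have h6 : p.1 = p.2 := by linarith
  obtain ⟨i, b⟩ := x
  obtain ⟨q1, q2, -, -⟩ := h2
  fin_cases i
  · have := q1 rfl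
    rw [h6] at this
    exact lt_irrefl _ this
  · have := q2 rfl
    rw [h6] at this
    exact lt_irrefl _ this

end Pool.Agent.V1178.FG
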