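import Pool.Agent.V1157.PI.Defs
import Pool.Agent.V1157.RC.Base

/-!
# Words in unipotent automorphisms given by correspondences of square zero: definitions
-/

set_option autoImplicit false

open CategoryTheory AlgebraicGeometry

universe u v w

namespace Pool.Agent.V1178.FG

open Pool.Agent.H914 Pool.Agent.H914.VarClass Pool.Agent.H914.VarClass.Obj Pool.Agent.W492.BB
  Pool.Agent.W550.Corr Pool.Agent.TH133 Pool.Agent.Y148.BB Pool.Agent.Y152.AS Pool.Agent.V1157.RC
  Pool.Agent.V1157.PI

variable {k : Type u} [Field k] {𝒱 : VarClass k} {C : TheoryData.{u, v, 0} 𝒱 ℚ}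

/-- The action of `1 + W i` (for `x = (i, true)`) or `1 - W i` (for `x = (i, false)`) on the Chow
group of `X`. If `W i ∘ W i = 0` then `1 - W i` is the inverse of `1 + W i`. -/
noncomputable def letter {X : 𝒱.Obj} (W : Fin 2 → C.A (X.prod X)) (x : Fin 2 × Bool)
    (α : C.A X) : C.A X :=
  if x.2 then α + C.act (W x.1) α else α - C.act (W x.1) α

/-- The action of the element `w` of the free group of rank two on the Chow group of `X`, the
generators acting as `1 + W 0` and `1 + W 1`, if `W i ∘ W i = 0` for `i = 0, 1`: the letters of the
reduced word for `w` are applied one after the other, the last one first. -/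
noncomputable def wordAct {X : 𝒱.Obj} (W : Fin 2 → C.A (X.prod X)) (w : FreeGroup (Fin 2))
    (α : C.A X) : C.A X :=
  w.toWord.foldr (letter W) α

variable {K : Type w} [Field K]

/-- `W` is homologically trivial, factors through a surface of geometric genus zero, and
`W ∘ W = 0`. Then `1 + W` is an automorphism of the Chow motive of `X`, with the inverse `1 - W`,
which is the identity in cohomology. -/
def IsUnip (H : WeilTheoryData.{u, v, w} C K) {X : 𝒱.Obj} (W : C.A (X.prod X)) : Prop :=
  C.comp W W = 0 ∧ C.Deg 2 W ∧ H.cl W = 0 ∧ ThroughPgZero H W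

/-- Let `X` be a surface and `W 0`, `W 1` homologically trivial self-correspondences of `X` which
factor through surfaces of geometric genus zero, with `W i ∘ W i = 0`. Then every element of the
Albanese kernel of `X` is an eigenvector, with a rational eigenvalue, of some nontrivial word in the
automorphisms `1 + W 0` and `1 + W 1` and their inverses (the word may depend on everything). -/
def NoFreeLines (H : WeilTheoryData.{u, v, w} C K) : Prop :=
  ∀ X : 𝒱.Obj, X.dim = 2 → ∀ W : Fin 2 → C.A (X.prod X), (∀ i, IsUnip H (W i)) →
    ∀ α : C.A X, InAlbKer C α → ∃ (w : FreeGroup (Fin 2)) (l : ℚ), w ≠ 1 ∧ wordAct W w α = l • α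

/-- The same with one word for all elements of the Albanese kernel: `1 + W 0` and `1 + W 1` satisfy
a nontrivial relation on the Albanese kernel of `X`, that is, they do not generate freely a free
group of automorphisms of it. -/
def NoFreePairs (H : WeilTheoryData.{u, v, w} C K) : Prop :=
  ∀ X : 𝒱.Obj, X.dim = 2 → ∀ W : Fin 2 → C.A (X.prod X), (∀ i, IsUnip H (W i)) →
    ∃ w : FreeGroup (Fin 2), w ≠ 1 ∧ ∀ α : C.A X, InAlbKer C α → wordAct W w α = α

end Pool.Agent.V1178.FG
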