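import Pool.Agent.V1157.PI.Main
import Pool.Agent.V1178.FG.Defs
import Pool.Agent.V1178.FG.Ping

/-!
# Bloch's conjecture for surfaces of geometric genus zero from relations between unipotent
automorphisms
-/

set_option autoImplicit false

open CategoryTheory AlgebraicGeometry

universe u v w

namespace Pool.Agent.V1178.FG

open Pool.Agent.H914 Pool.Agent.H914.VarClass Pool.Agent.H914.VarClass.Obj Pool.Agent.W492.BB
  Pool.Agent.W550.Corr Pool.Agent.TH133 Pool.Agent.Y148.BB Pool.Agent.Y152.AS Pool.Agent.V1157.RC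
  Pool.Agent.V1157.PI

set_option linter.unusedSectionVars false

variable {k : Type u} [Field k] {𝒱 : VarClass k} {C : TheoryData.{u, v, 0} 𝒱 ℚ}
  [hC : IsChowProj C] {S V : 𝒱.Obj} {K : Type w} [Field K]

include hC

/-- The action of a matrix unit. -/
lemma act_mat {a : C.A S} {m κ t : ℚ} {Z : C.A (S.prod S)} {α : C.A S}
    (hZ : C.act (shp 2 a a m m Z) α = t • α) {p q : V ⟶ S} (hp : C.push p 1 = κ • (1 : C.A S)) :
    C.act (mat C a m Z p q) (C.pull p α) = (κ * t) • C.pull q α := by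
  rw [mat, C.act_comp, C.act_graph, push_pull_of hp, C.act_comp, act_map_smul, hZ, act_map_smul,
    act_map_smul, C.act_cograph, smul_smul]

/-- A matrix unit kills the other components. -/
lemma act_mat_other {a : C.A S} {m κ t c : ℚ} (hS : S.dim = 2) (ha : a ∈ C.gr S 1) (hm : m ≠ 0)
    (dm : HasDegree C (a ^ 2) m) {Z : C.A (S.prod S)} {α : C.A S} (hκ : κ ≠ 0) (ht : t ≠ 0)
    (hZ : C.act (shp 2 a a m m Z) α = t • α) {p q : V ⟶ S} (r : V ⟶ S)
    (hq : C.push q 1 = κ • (1 : C.A S))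
    (h : C.push (Obj.lift q p) 1 = c • (C.pull (fst S S) a + C.pull (snd S S) a) ^ 2) :
    C.act (mat C a m Z p r) (C.pull q α) = 0 := by
  have h1 : C.act (mat C a m Z q q) (C.pull q α) = (κ * t) • C.pull q α := act_mat hZ hq
  have h2 : C.act (mat C a m Z p r) (C.act (mat C a m Z q q) (C.pull q α)) = 0 := by
    rw [← C.act_comp]
    have h3 := mat_comp_zero (V := V) hS ha hm dm Z (q := q) (p' := p) (p := q) (q' := r) h (dg C V)
    rw [comp_dg] at h3
    rw [h3, C.act_zero]
  rw [h1, act_map_smul] at h2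
  rcases smul_eq_zero.1 h2 with h3 | h3
  · exact absurd h3 (mul_ne_zero hκ ht)
  · exact h3

section weil

variable {H : WeilTheoryData.{u, v, w} C K} [hH : IsWeilProj H]

/-- Bloch's conjecture for surfaces with `p_g = 0` makes all the automorphisms trivial on the
Albanese kernel. -/
lemma noFreePairs_of_bloch (h : BlochPgZero H) : NoFreePairs H := by
  intro X hX W hWW
  refine ⟨FreeGroup.of 0, FreeGroup.of_ne_one 0, ?_⟩
  intro α hα
  obtain ⟨-, -, -, S, Γ, Δ, hS, hΓ, hΔ, h1⟩ := hWW 0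
  have h2 : C.act (W 0) α = 0 := by
    rw [h1, C.act_comp, h S hS _ (inAlbKer_iff.2 (act_albKer hX hS.1 hΓ (inAlbKer_iff.1 hα))),
      C.act_map_zero]
  rw [wordAct, FreeGroup.toWord_of]
  change α + C.act (W 0) α = α
  rw [h2, add_zero]

lemma noFreeLines_of_pairs (h : NoFreePairs H) : NoFreeLines H := by
  intro X hX W hWW α hα
  obtain ⟨w, hw, h1⟩ := h X hX W hWW
  exact ⟨w, 1, hw, by rw [h1 α hα, one_smul]⟩

/-- The converse. -/
lemma bloch_of_noFree (H : WeilTheoryData.{u, v, w} C K) [hH : IsWeilProj H]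
    (hI : ∀ S : 𝒱.Obj, S.dim = 2 → HasPower C S 2) (h : NoFreeLines H) : BlochPgZero H := by
  intro S hS α hα
  by_contra hne
  have hα' := inAlbKer_iff.1 hα
  have hS2 := hS.1
  obtain ⟨V, p, a, m, c', κ, hV, ha, hm, hκ, dm, hp, hpp⟩ := hI S hS2
  obtain ⟨W₀, hW₀, hcl⟩ := hS.2.homDeg
  have ht : (3 / κ : ℚ) ≠ 0 := div_ne_zero (by norm_num) hκ
  have hκt : κ * (3 / κ) = 3 := mul_div_cancel₀ 3 hκ
  set Z := (3 / κ : ℚ) • (dg C S - W₀) with hZdef
  have hZ2 : Z ∈ C.gr (S.prod S) 2 :=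
    Submodule.smul_mem _ _
      (Submodule.sub_mem _ (gr_congr (by rw [hS2]; norm_num) (dg_mem C S)) (degenerate_le hS2 hW₀))
  have hZcl : H.cl Z = 0 := by
    rw [hZdef, Algebra.smul_def, map_mul, map_sub, hcl, sub_self, mul_zero]
  have hZα : C.act Z α = (3 / κ : ℚ) • α := by
    rw [hZdef, act_smul', C.act_sub, act_dg, degenerate_act hS2 hW₀ hα', sub_zero]
  have hα2 := albKer_mem hS2 hα'
  have hα0 := albKer_degree H hS2 hα'
  have hsh : C.act (shp 2 a a m m Z) α = (3 / κ : ℚ) • α := by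
    rw [shp, C.act_comp, C.act_sub, act_dg, act_prj_zero hS2 ha m hα2 hα0, sub_zero, C.act_comp,
      hZα, act_map_smul, C.act_sub, act_dg, act_prj_zero hS2 ha m hα2 hα0, sub_zero]
  have h01 := hpp 0 1 (by decide)
  have h10 := hpp 1 0 (by decide)
  set W : Fin 2 → C.A (V.prod V) := ![mat C a m Z (p 1) (p 0), mat C a m Z (p 0) (p 1)] with hWdef
  have hsq : ∀ i, C.comp (W i) (W i) = 0 := by
    intro i
    fin_cases i
    · have h3 := mat_comp_zero (V := V) hS2 ha hm dm Z (p := p 1) (q := p 0) (p' := p 1)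
        (q' := p 0) h01 (dg C V)
      rw [comp_dg] at h3
      exact h3
    · have h3 := mat_comp_zero (V := V) hS2 ha hm dm Z (p := p 0) (q := p 1) (p' := p 0)
        (q' := p 1) h10 (dg C V)
      rw [comp_dg] at h3
      exact h3
  have hWW : ∀ i, IsUnip H (W i) := by
    intro i
    refine ⟨hsq i, ?_⟩
    fin_cases i
    · exact ⟨(mat_through hS hV ha hZ2 _ _).1, cl_mat hZcl _ _, (mat_through hS hV ha hZ2 _ _).2⟩
    · exact ⟨(mat_through hS hV ha hZ2 _ _).1, cl_mat hZcl _ _, (mat_through hS hV ha hZ2 _ _).2⟩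
  have hmem : ∀ i, InAlbKer C (C.pull (p i) α) := by
    intro i
    rw [inAlbKer_iff, ← C.act_cograph]
    exact act_albKer hS2 hV (gr_congr (by rw [hS2]; norm_num) (cograph_mem (p i))) hα'
  have hpull : ∀ i, C.pull (p i) α ≠ 0 := by
    intro i h0
    have h4 := push_pull_of (hp i) α
    rw [h0, map_zero] at h4
    exact hne ((smul_eq_zero.1 h4.symm).resolve_left hκ)
  have a00 : C.act (W 0) (C.pull (p 0) α) = 0 :=
    act_mat_other hS2 ha hm dm hκ ht hsh (p 0) (hp 0) h01
  have a01 : C.act (W 0) (C.pull (p 1) α) = (3 : ℚ) • C.pull (p 0) α := by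
    rw [← hκt]
    exact act_mat hsh (hp 1)
  have a10 : C.act (W 1) (C.pull (p 0) α) = (3 : ℚ) • C.pull (p 1) α := by
    rw [← hκt]
    exact act_mat hsh (hp 0)
  have a11 : C.act (W 1) (C.pull (p 1) α) = 0 :=
    act_mat_other hS2 ha hm dm hκ ht hsh (p 1) (hp 1) h10
  obtain ⟨w, l, hw, hl⟩ := h V hV W hWW (C.pull (p 0) α + C.pull (p 1) α) (by
    rw [inAlbKer_iff]
    exact Submodule.add_mem _ (inAlbKer_iff.1 (hmem 0)) (inAlbKer_iff.1 (hmem 1)))
  refine free_orbit (A := fun i => C.actL (W i)) (e := fun i => C.pull (p i) α)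
    a00 a01 a10 a11 ?_ hw l hl
  · intro u v huv
    change u • C.pull (p 0) α + v • C.pull (p 1) α = 0 at huv
    have b0 : C.act (W 1) (u • C.pull (p 0) α + v • C.pull (p 1) α) = (u * 3) • C.pull (p 1) α := by
      rw [act_map_add, act_map_smul, act_map_smul, a10, a11, smul_zero, add_zero, smul_smul]
    have b1 : C.act (W 0) (u • C.pull (p 0) α + v • C.pull (p 1) α) = (v * 3) • C.pull (p 0) α := by
      rw [act_map_add, act_map_smul, act_map_smul, a00, a01, smul_zero, zero_add, smul_smul]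
    rw [huv, C.act_map_zero] at b0 b1
    constructor
    · rcases smul_eq_zero.1 b0.symm with h | h
      · linarith
      · exact absurd h (hpull 1)
    · rcases smul_eq_zero.1 b1.symm with h | h
      · linarith
      · exact absurd h (hpull 0)

end weil

end Pool.Agent.V1178.FG
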